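import Pool.Agent.H91.Lienard

set_option autoImplicit false

open Set H91.Lienard in
theorem Pool.Agent.Results.MP_b09cb0_an.QuarticIntegral.result :
    ∃ E : Polynomial ℝ, (∀ x, E.eval (-x) = E.eval x) ∧ 4 ≤ E.natDegree ∧
    ∃ H : ℝ × ℝ → ℝ, AnalyticOnNhd ℝ H univ ∧ (∃ p q, H p ≠ H q) ∧
      ∀ x y : ℝ, (y - E.eval x) * deriv (fun t => H (t, y)) x -
        x * deriv (fun t => H (x, t)) y = 0 :=
  main
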